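import Mathlib

set_option autoImplicit false

open Finset

namespace Pool.Agent.Results.MP_9f71e8_nt.All

/-- `n` is a sum of positive powers of the first `L` primes, each used once, for some `L ≥ 1`;
`Nat.nth Nat.Prime j` is the `(j + 1)`-st prime -/
def Representable (n : ℕ) : Prop :=
  ∃ L, 1 ≤ L ∧ ∃ α : ℕ → ℕ, (∀ j, 1 ≤ α j) ∧ n = ∑ j ∈ range L, Nat.nth Nat.Prime j ^ α j

/-- the primes in increasing order -/
noncomputable abbrev p (j : ℕ) : ℕ := Nat.nth Nat.Prime j

/-- representable with exactly `L` primes -/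
def R (L n : ℕ) : Prop := ∃ α : ℕ → ℕ, (∀ j, 1 ≤ α j) ∧ n = ∑ j ∈ range L, p j ^ α j

theorem R.step {L n : ℕ} (h : R L n) (a : ℕ) : R (L + 1) (n + p L ^ (a + 1)) := by
  obtain ⟨α, h1, rfl⟩ := h
  refine ⟨Function.update α L (a + 1), fun j => ?_, ?_⟩
  · by_cases hj : j = L
    · subst hj; simp
    · rw [Function.update_of_ne hj]; exact h1 j
  · rw [sum_range_succ, Function.update_self]
    congr 1
    exact sum_congr rfl fun j hj => by rw [Function.update_of_ne (mem_range.1 hj).ne]

/-- a search for representations -/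
def chk : List ℕ → ℕ → Bool
  | [], n => n == 0
  | q :: l, n => (List.range 9).any fun a => decide (q ^ (a + 1) ≤ n) && chk l (n - q ^ (a + 1))

/-- the first primes in decreasing order -/
noncomputable def pl : ℕ → List ℕ
  | 0 => []
  | L + 1 => p L :: pl L

theorem chk_R (L : ℕ) : ∀ n, chk (pl L) n = true → R L n := by
  induction L with
  | zero => intro n h; exact ⟨fun _ => 1, fun _ => le_rfl, by simpa [pl, chk] using h⟩
  | succ L ih =>
    intro n h
    simp only [pl, chk, List.any_eq_true, Bool.and_eq_true, decide_eq_true_eq] at h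
    obtain ⟨a, -, h1, h2⟩ := h
    have := (ih _ h2).step a
    rwa [Nat.sub_add_cancel h1] at this

theorem p5 : p 5 = 13 := Nat.nth_count (p := Nat.Prime) (n := 13) (by norm_num)
theorem p6 : p 6 = 17 := Nat.nth_count (p := Nat.Prime) (n := 17) (by norm_num)
theorem p7 : p 7 = 19 := Nat.nth_count (p := Nat.Prime) (n := 19) (by norm_num)

theorem pl8 (L : ℕ) (h : L ≤ 8) : pl L = [19, 17, 13, 11, 7, 5, 3, 2].drop (8 - L) := by
  interval_cases L <;> simp [pl, p5, p6, p7]

theorem small (n : ℕ) (h1 : 34 ≤ n) (h2 : n < 160) : Representable n := by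
  have key : ∀ n < 160, 34 ≤ n → ∃ L < 8,
      chk ([19, 17, 13, 11, 7, 5, 3, 2].drop (8 - (L + 1))) n = true := by decide +kernel
  obtain ⟨L, hL, h⟩ := key n h2 h1
  rw [← pl8 _ (by omega)] at h
  exact ⟨L + 1, by omega, chk_R _ _ h⟩

/-- sum of the first `L` primes -/
noncomputable def S (L : ℕ) : ℕ := ∑ j ∈ range L, p j

/-- sum of `q (q - 1) / 2` over the first `L` primes -/
noncomputable def D (L : ℕ) : ℕ := ∑ j ∈ range L, (p j).choose 2

/-- sum of `q (q - 1) / 2` over the primes below `x` -/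
def E (x : ℕ) : ℕ := ∑ q ∈ (range x).filter Nat.Prime, q.choose 2

theorem D_eq (L : ℕ) : D L = E (p L) := by
  induction L with
  | zero => simp only [D, E, p, Nat.nth_prime_zero_eq_two]; decide
  | succ L ih =>
    rw [E, Nat.filter_range_nth_eq_insert_of_infinite Nat.infinite_setOfPred_prime,
      sum_insert (by simp), D, sum_range_succ, add_comm]
    exact congrArg _ ih

theorem E_mono {x y : ℕ} (h : x ≤ y) : E x ≤ E y :=
  sum_le_sum_of_subset (filter_subset_filter _ (range_subset_range.2 h))

theorem E_succ {q : ℕ} (h : q.Prime) : E (q + 1) = E q + q.choose 2 := by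
  rw [E, range_add_one, filter_insert, if_pos h, sum_insert (by simp), add_comm]; rfl

theorem two_choose (q : ℕ) : q + 2 * q.choose 2 = q ^ 2 := by
  induction q with
  | zero => rfl
  | succ q ih => rw [Nat.choose_succ_succ', Nat.choose_one_right]; nlinarith

/-- a chain of primes certifying the growth condition -/
def ok : ℕ → ℕ → List ℕ → Prop
  | _, _, [] => True
  | a, c, q :: l => a ≤ q ∧ q.choose 2 ≤ c ∧ q.Prime ∧ ok (q + 1) (c + q.choose 2) l

theorem ok_le (l : List ℕ) : ∀ a c, ok a c l → c + 10 ≤ E a → ∀ x, a ≤ x → (∃ q ∈ l, x ≤ q) →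
    x.choose 2 + 10 ≤ E x := by
  induction l with
  | nil => intro a c _ _ x _ h; simp at h
  | cons q l ih =>
    rintro a c ⟨h1, h2, h3, h4⟩ hc x hx hq
    by_cases hxq : x ≤ q
    · have := Nat.choose_le_choose 2 hxq
      have := E_mono hx
      omega
    · refine ih _ _ h4 ?_ x (by omega) ?_
      · have := E_mono h1
        rw [E_succ h3]; omega
      · obtain ⟨r, hr, hxr⟩ := hq
        rcases List.mem_cons.1 hr with rfl | hr
        · exact absurd hxr hxq
        · exact ⟨r, hr, hxr⟩

theorem D_ge (L : ℕ) : L * (L + 1) * (L + 2) ≤ 6 * D L := by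
  induction L with
  | zero => simp
  | succ L ih =>
    have h1 := Nat.choose_le_choose 2 (Nat.add_two_le_nth_prime L)
    have h2 := two_choose (L + 2)
    rw [D, sum_range_succ]
    unfold D at ih
    nlinarith

theorem cheb (L : ℕ) : 2 ^ (p L - 1) ≤ p L ^ (L + 1) := by
  have hp : 2 ≤ p L := (Nat.prime_nth_prime L).two_le
  have h1 := Chebyshev.two_pow_le_mul_lcmUpto (p L - 1)
  rw [Nat.lcmUpto_eq_prod_pow_log, Nat.sub_add_cancel (by omega)] at h1
  have h2 := prod_le_pow_card (Nat.primesLE (p L - 1)) (fun q => q ^ q.log (p L - 1)) (p L)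
    fun q _ => (Nat.pow_log_le_self q (by omega)).trans (by omega)
  rw [Nat.primesLE_card_eq_primeCounting, Nat.primeCounting_sub_one,
    Nat.primeCounting'_nth_eq] at h2
  rw [pow_succ']
  exact h1.trans (Nat.mul_le_mul_left _ h2)

theorem cube_le (k : ℕ) (hk : 14 ≤ k) : 3 * (k + 1) ^ 3 ≤ 2 ^ k := by
  induction k, hk using Nat.le_induction with
  | base => norm_num
  | succ k hk ih =>
    have : 14 * (k * k) ≤ k * (k * k) := Nat.mul_le_mul_right _ hk
    rw [pow_succ 2]
    nlinarith

theorem growth (L : ℕ) (hL : 5 ≤ L) : (p L).choose 2 + 10 ≤ D L := by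
  have h13 : 13 ≤ p L := p5 ▸ Nat.nth_monotone Nat.infinite_setOfPred_prime hL
  by_cases hb : p L ≤ 20023
  · rw [D_eq]
    refine ok_le [13, 17, 23, 31, 43, 61, 83, 113, 163, 229, 317, 449, 631, 887, 1259, 1777, 2503,
      3547, 5011, 7079, 10009, 14159, 20023] 13 80 ?_ (by decide) _ h13 ⟨20023, by simp, hb⟩
    norm_num [ok, Nat.choose_two_right]
  by_contra hlt
  set k := Nat.log 2 (p L) with hk
  have h1 : 2 ^ k ≤ p L := Nat.pow_log_le_self 2 (by omega)
  have h2 : p L < 2 ^ (k + 1) := Nat.lt_pow_succ_log_self (by norm_num) _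
  have h3 : 14 ≤ k := Nat.le_log_of_pow_le (by norm_num) (by omega)
  have h4 : p L - 1 < (k + 1) * (L + 1) := by
    have := (cheb L).trans_lt (Nat.pow_lt_pow_left h2 (Nat.succ_ne_zero L))
    rw [← pow_mul] at this
    exact (Nat.pow_lt_pow_iff_right (by norm_num)).1 this
  have h5 : p L ≤ (k + 1) * (L + 1) := by omega
  have h6 := D_ge L
  have h7 := two_choose (p L)
  have h8 : L + 2 ≤ p L := Nat.add_two_le_nth_prime L
  have h9 : (L + 1) ^ 3 < 3 * p L ^ 2 := by nlinarith
  have h10 := Nat.pow_le_pow_left h5 3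
  have h11 := (cube_le k h3).trans h1
  have h12 : (k + 1) ^ 3 * (L + 1) ^ 3 < (k + 1) ^ 3 * (3 * p L ^ 2) :=
    Nat.mul_lt_mul_of_pos_left h9 (by positivity)
  have h13 : 3 * (k + 1) ^ 3 * p L ^ 2 ≤ p L * p L ^ 2 := Nat.mul_le_mul_right _ h11
  rw [mul_pow] at h10
  nlinarith

theorem inv (L : ℕ) (hL : 5 ≤ L) : ∀ m, 58 ≤ m → m ≤ 47 + D L → R L (S L + 2 * m) := by
  induction L, hL using Nat.le_induction with
  | base =>
    intro m h1 h2
    have hD : D 5 = 90 := by simp [D, sum_range_succ]; rfl
    have hS : S 5 = 28 := by simp [S, sum_range_succ]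
    have key : ∀ m ≤ 137, 58 ≤ m → chk [11, 7, 5, 3, 2] (28 + 2 * m) = true := by decide +kernel
    refine chk_R _ _ ?_
    rw [pl8 5 (by norm_num), hS]
    exact key m (by omega) h1
  | succ L hL ih =>
    intro m h1 h2
    have hD : D (L + 1) = D L + (p L).choose 2 := sum_range_succ _ _
    have hS : S (L + 1) = S L + p L := sum_range_succ _ _
    by_cases hm : m ≤ 47 + D L
    · have := (ih m h1 hm).step 0
      rw [hS]
      convert this using 1
      ring
    · have hg := growth L hL
      have := (ih (m - (p L).choose 2) (by omega) (by omega)).step 1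
      rw [hS]
      convert this using 1
      have := two_choose (p L)
      rw [show 1 + 1 = 2 from rfl]
      omega

theorem odd_p (L : ℕ) (hL : 5 ≤ L) : p L % 2 = 1 := by
  have h13 : 13 ≤ p L := p5 ▸ Nat.nth_monotone Nat.infinite_setOfPred_prime hL
  have h : p L = 2 ∨ p L % 2 = 1 := (Nat.prime_nth_prime L).eq_two_or_odd
  omega

theorem bert (L : ℕ) : p (L + 1) ≤ 2 * p L := by
  obtain ⟨q, hq, h1, h2⟩ := Nat.exists_prime_lt_and_le_two_mul (p L)
    (Nat.prime_nth_prime L).ne_zero
  by_contra h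
  have h3 : q < p (L + 1) := by omega
  have h4 : q ≤ p L := Nat.le_nth_of_lt_nth_succ h3 hq
  omega

theorem cover (L : ℕ) (hL : 5 ≤ L) : ∀ n, 34 ≤ n → n < S (L + 1) + 116 → Representable n := by
  induction L, hL using Nat.le_induction with
  | base =>
    intro n h1 h2
    have hS : S (5 + 1) = 41 := by simp [S, sum_range_succ, p5]
    exact small n h1 (by omega)
  | succ L hL ih =>
    intro n h1 h2
    by_cases h : n < S (L + 1) + 116
    · exact ih n h1 h
    have hS : S (L + 1) = S L + p L := sum_range_succ _ _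
    have hS' : S (L + 1 + 1) = S (L + 1) + p (L + 1) := sum_range_succ _ _
    have hD : D (L + 1) = D L + (p L).choose 2 := sum_range_succ _ _
    have h13 : 13 ≤ p L := p5 ▸ Nat.nth_monotone Nat.infinite_setOfPred_prime hL
    have hg := growth L hL
    have hb := bert L
    have ho := odd_p L hL
    have ht := two_choose (p L)
    have hq : 13 * p L ≤ p L ^ 2 := by nlinarith
    by_cases hpar : (n - S L) % 2 = 0
    · have := inv L hL ((n - S L) / 2) (by omega) (by omega)
      rw [show S L + 2 * ((n - S L) / 2) = n by omega] at this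
      exact ⟨L, by omega, this⟩
    · have := inv (L + 1) (by omega) ((n - S (L + 1)) / 2) (by omega) (by omega)
      rw [show S (L + 1) + 2 * ((n - S (L + 1)) / 2) = n by omega] at this
      exact ⟨L + 1, by omega, this⟩

/-- Every integer `n ≥ 34` is a sum of positive powers of the first `L` primes for some `L`. -/
theorem result (n : ℕ) (hn : 34 ≤ n) : Representable n := by
  refine cover (n + 5) (by omega) n hn ?_
  have h1 : S (n + 5 + 1) = S (n + 5) + p (n + 5) := sum_range_succ _ _
  have h2 : n + 5 + 2 ≤ p (n + 5) := Nat.add_two_le_nth_prime _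
  omega

end Pool.Agent.Results.MP_9f71e8_nt.All
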